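import Pool.Agent.Q193.SB.Ell

set_option autoImplicit false
set_option linter.unusedSectionVars false

/-!
The algebra: the `ℓ¹`-sum over `n` of the weighted semilattice algebras `ℓ¹(S, ω_n)`, where
`S = {o} ∪ {b_j}` with `b_j b_j = b_j` and all other products equal to `o`, and
`ω_n(o) = (n+1)²`, `ω_n(b_j) = n+1`.
-/

open Filter Topology

namespace Pool.Agent.Q193.SB

/-- the weight; `(n, 0)` is the zero of the `n`-th semilattice, `(n, j)` with `j ≥ 1` is `b_j` -/
noncomputable def wt (s : ℕ × ℕ) : ℝ := if s.2 = 0 then ((s.1 : ℝ) + 1) ^ 2 else (s.1 : ℝ) + 1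

/-- the semilattice operation -/
def meet (i j : ℕ) : ℕ := if i = j then i else 0

lemma one_le_wt (s : ℕ × ℕ) : 1 ≤ wt s := by
  unfold wt
  have : (0 : ℝ) ≤ s.1 := Nat.cast_nonneg _
  split_ifs
  · nlinarith
  · linarith

lemma wt_pos (s : ℕ × ℕ) : 0 < wt s := lt_of_lt_of_le one_pos (one_le_wt s)

lemma wt_ne (s : ℕ × ℕ) : (wt s : ℂ) ≠ 0 := by
  exact_mod_cast (wt_pos s).ne'

lemma wt_le (n i j : ℕ) : wt (n, meet i j) ≤ wt (n, i) * wt (n, j) := by
  have hn : (0 : ℝ) ≤ n := Nat.cast_nonneg _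
  unfold wt meet
  by_cases hij : i = j
  · subst hij
    by_cases hi : i = 0
    · subst hi
      simp
      nlinarith [sq_nonneg ((n : ℝ) + 1), one_le_pow₀ (n := 2) (by linarith : (1 : ℝ) ≤ (n : ℝ) + 1)]
    · simp [hi]
      nlinarith
  · simp only [hij, if_false, if_true]
    split_ifs
    · nlinarith [one_le_pow₀ (n := 2) (by linarith : (1 : ℝ) ≤ (n : ℝ) + 1)]
    · nlinarith [one_le_pow₀ (n := 2) (by linarith : (1 : ℝ) ≤ (n : ℝ) + 1)]
    · nlinarith [one_le_pow₀ (n := 2) (by linarith : (1 : ℝ) ≤ (n : ℝ) + 1)]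
    · nlinarith

/-- the multiplication table of the normalised basis -/
noncomputable def tab (s t : ℕ × ℕ) : Ell (ℕ × ℕ) :=
  if s.1 = t.1 then
    ((wt (s.1, meet s.2 t.2) / (wt s * wt t) : ℝ) : ℂ) • del (s.1, meet s.2 t.2)
  else 0

lemma norm_tab (s t : ℕ × ℕ) : ‖tab s t‖ ≤ 1 := by
  obtain ⟨n, i⟩ := s
  obtain ⟨m, j⟩ := t
  unfold tab
  by_cases h : n = m
  · subst h
    simp only [if_true]
    rw [norm_smul, norm_del, mul_one, Complex.norm_real, Real.norm_eq_abs,
      abs_of_nonneg (by have := wt_pos (n, i); have := wt_pos (n, j); have := wt_pos (n, meet i j)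
                        positivity)]
    rw [div_le_one (mul_pos (wt_pos _) (wt_pos _))]
    exact wt_le n i j
  · simp [h]

lemma norm_lift_le {ι : Type} [DecidableEq ι] {F : Type*} [NormedAddCommGroup F] [NormedSpace ℂ F]
    [CompleteSpace F] (v : ι → F) (C : ℝ) (hC : 0 ≤ C) (h : ∀ s, ‖v s‖ ≤ C) : ‖lift v C h‖ ≤ C :=
  ContinuousLinearMap.opNorm_le_bound _ hC (norm_lift_apply_le v C h)

/-- the multiplication -/
noncomputable def mulL : Ell (ℕ × ℕ) →L[ℂ] Ell (ℕ × ℕ) →L[ℂ] Ell (ℕ × ℕ) :=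
  lift (fun s => lift (fun t => tab s t) 1 (norm_tab s)) 1
    (fun _ => norm_lift_le _ 1 zero_le_one _)

lemma mulL_del (s t : ℕ × ℕ) : mulL (del s) (del t) = tab s t := by
  unfold mulL
  rw [lift_del, lift_del]

lemma norm_mulL (x y : Ell (ℕ × ℕ)) : ‖mulL x y‖ ≤ ‖x‖ * ‖y‖ := by
  have h1 : ‖mulL‖ ≤ 1 := norm_lift_le _ 1 zero_le_one _
  calc ‖mulL x y‖ ≤ ‖mulL‖ * ‖x‖ * ‖y‖ := mulL.le_opNorm₂ x y
    _ ≤ 1 * ‖x‖ * ‖y‖ := by gcongr
    _ = _ := by ring

/-- membership of the character `k` on the basis vector `s` -/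
def On (k s : ℕ × ℕ) : Prop := s.1 = k.1 ∧ (k.2 = 0 ∨ s.2 = k.2)

instance (k s : ℕ × ℕ) : Decidable (On k s) := by unfold On; infer_instance

lemma norm_chiv (k s : ℕ × ℕ) : ‖(if On k s then (((wt s)⁻¹ : ℝ) : ℂ) else 0)‖ ≤ 1 := by
  split_ifs
  · rw [Complex.norm_real, Real.norm_eq_abs, abs_of_pos (inv_pos.mpr (wt_pos s))]
    exact inv_le_one_of_one_le₀ (one_le_wt s)
  · simp

/-- the characters -/
noncomputable def chi (k : ℕ × ℕ) : Ell (ℕ × ℕ) →L[ℂ] ℂ :=
  lift (fun s => if On k s then (((wt s)⁻¹ : ℝ) : ℂ) else 0) 1 (norm_chiv k)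

lemma chi_del (k s : ℕ × ℕ) :
    chi k (del s) = if On k s then (((wt s)⁻¹ : ℝ) : ℂ) else 0 := lift_del _ _ _ _

lemma chi_tab (k s t : ℕ × ℕ) : chi k (tab s t) = chi k (del s) * chi k (del t) := by
  obtain ⟨n, i⟩ := s
  obtain ⟨m, j⟩ := t
  obtain ⟨p, q⟩ := k
  rw [chi_del, chi_del]
  unfold tab
  by_cases h : n = m
  · subst h
    simp only [if_true]
    rw [map_smul, chi_del, smul_eq_mul]
    have h1 := wt_ne (n, i)
    have h2 := wt_ne (n, j)
    have h3 := wt_ne (n, meet i j)
    have key : On (p, q) (n, meet i j) ↔ On (p, q) (n, i) ∧ On (p, q) (n, j) := by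
      unfold On meet
      simp only
      by_cases hq : q = 0
      · simp [hq]
      · by_cases hij : i = j
        · subst hij; simp
        · simp only [hij, hq, if_false, false_or]
          constructor
          · rintro ⟨_, h⟩; exact absurd h.symm hq
          · rintro ⟨⟨_, h⟩, _, h'⟩; exact absurd (h.trans h'.symm) hij
    by_cases h4 : On (p, q) (n, i)
    · by_cases h5 : On (p, q) (n, j)
      · rw [if_pos h4, if_pos h5, if_pos (key.mpr ⟨h4, h5⟩)]
        push_cast
        field_simp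
      · rw [if_neg h5, if_neg (fun h => h5 (key.mp h).2)]
        simp
    · rw [if_neg h4, if_neg (fun h => h4 (key.mp h).1)]
      simp
  · simp only [h, if_false, map_zero]
    unfold On
    by_cases h6 : n = p
    · have : m ≠ p := fun h' => h (h6.trans h'.symm)
      simp [this]
    · simp [h6]

lemma chi_mulL (k : ℕ × ℕ) (x y : Ell (ℕ × ℕ)) : chi k (mulL x y) = chi k x * chi k y := by
  have h1 : ∀ s, (chi k).comp (mulL (del s)) = chi k (del s) • chi k := by
    intro s
    refine ext_del fun t => ?_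
    rw [ContinuousLinearMap.comp_apply, mulL_del, chi_tab]
    rfl
  have h2 : (chi k).comp (mulL.flip y) = chi k y • chi k := by
    refine ext_del fun s => ?_
    have := congrArg (fun T => T y) (h1 s)
    simp only [ContinuousLinearMap.comp_apply] at this
    rw [ContinuousLinearMap.comp_apply, ContinuousLinearMap.flip_apply, this]
    simp [mul_comm]
  have := congrArg (fun T => T x) h2
  simp only [ContinuousLinearMap.comp_apply, ContinuousLinearMap.flip_apply] at this
  rw [this]
  simp [mul_comm]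

lemma chi_eq_tsum (k : ℕ × ℕ) (x : Ell (ℕ × ℕ)) :
    chi k x = ∑' s, x s • (if On k s then (((wt s)⁻¹ : ℝ) : ℂ) else 0) := rfl

/-- the characters separate the points -/
lemma chi_inj {x : Ell (ℕ × ℕ)} (h : ∀ k, chi k x = 0) : x = 0 := by
  have h1 : ∀ n j, j ≠ 0 → x (n, j) = 0 := by
    intro n j hj
    have := h (n, j)
    rw [chi_eq_tsum, tsum_eq_single (n, j)] at this
    · have h2 : On (n, j) (n, j) := ⟨rfl, Or.inr rfl⟩
      rw [if_pos h2, smul_eq_mul] at this
      push_cast at this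
      exact (mul_eq_zero.mp this).resolve_right (inv_ne_zero (wt_ne _))
    · intro s hs
      have : ¬ On (n, j) s := by
        rintro ⟨h3, h4⟩
        refine hs (Prod.ext h3 (h4.resolve_left hj))
      rw [if_neg this, smul_zero]
  have h2 : ∀ n, x (n, 0) = 0 := by
    intro n
    have := h (n, 0)
    rw [chi_eq_tsum, tsum_eq_single (n, 0)] at this
    · have h2 : On (n, 0) (n, 0) := ⟨rfl, Or.inl rfl⟩
      rw [if_pos h2, smul_eq_mul] at this
      push_cast at this
      exact (mul_eq_zero.mp this).resolve_right (inv_ne_zero (wt_ne _))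
    · rintro ⟨m, j⟩ hs
      by_cases hj : j = 0
      · subst hj
        have : ¬ On (n, 0) (m, 0) := by
          rintro ⟨h3, h4⟩
          exact hs (Prod.ext h3 rfl)
        rw [if_neg this, smul_zero]
      · rw [h1 m j hj, zero_smul]
  ext ⟨n, j⟩
  by_cases hj : j = 0
  · subst hj; exact h2 n
  · exact h1 n j hj

lemma chi_ext {x y : Ell (ℕ × ℕ)} (h : ∀ k, chi k x = chi k y) : x = y :=
  sub_eq_zero.mp (chi_inj fun k => by rw [map_sub, h, sub_self])

lemma mulL_assoc (x y z : Ell (ℕ × ℕ)) : mulL (mulL x y) z = mulL x (mulL y z) := by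
  refine chi_ext fun k => ?_
  rw [chi_mulL, chi_mulL, chi_mulL, chi_mulL, mul_assoc]

lemma mulL_comm (x y : Ell (ℕ × ℕ)) : mulL x y = mulL y x := by
  refine chi_ext fun k => ?_
  rw [chi_mulL, chi_mulL, mul_comm]

/-- the algebra -/
def SAlg : Type := Ell (ℕ × ℕ)

noncomputable instance : NormedAddCommGroup SAlg := inferInstanceAs (NormedAddCommGroup (Ell (ℕ × ℕ)))
noncomputable instance : NormedSpace ℂ SAlg := inferInstanceAs (NormedSpace ℂ (Ell (ℕ × ℕ)))
instance : CompleteSpace SAlg := inferInstanceAs (CompleteSpace (Ell (ℕ × ℕ)))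

noncomputable instance : NonUnitalNormedCommRing SAlg :=
  { (inferInstance : NormedAddCommGroup SAlg) with
    mul := fun x y => mulL x y
    left_distrib := fun x y z => map_add (mulL x) y z
    right_distrib := fun x y z => by
      change mulL (x + y) z = mulL x z + mulL y z
      exact congrArg (fun T => T z) (map_add mulL x y)
    zero_mul := fun x => by
      change mulL 0 x = 0
      rw [map_zero]; rfl
    mul_zero := fun x => map_zero (mulL x)
    mul_assoc := fun x y z => mulL_assoc x y z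
    mul_comm := fun x y => mulL_comm x y
    norm_mul_le := fun x y => norm_mulL x y }

lemma mul_def (x y : SAlg) : x * y = mulL x y := rfl

instance : IsScalarTower ℂ SAlg SAlg where
  smul_assoc c x y := by
    change mulL (c • x) y = c • mulL x y
    exact congrArg (fun T => T y) (map_smul mulL c x)

instance : SMulCommClass ℂ SAlg SAlg where
  smul_comm c x y := by
    change c • mulL x y = mulL x (c • y)
    exact (map_smul (mulL x) c y).symm

end Pool.Agent.Q193.SB
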