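import Mathlib

set_option autoImplicit false
set_option linter.unusedSectionVars false

/-!
Tools for the Banach space `ℓ¹(ι)`: bounded linear maps out of it are bounded families.
-/

open Filter Topology

namespace Pool.Agent.Q193.SB

/-- The Banach space `ℓ¹(ι)`. -/
abbrev Ell (ι : Type) : Type := lp (fun _ : ι => ℂ) 1

variable {ι : Type} [DecidableEq ι] {F : Type*} [NormedAddCommGroup F] [NormedSpace ℂ F]
  [CompleteSpace F]

/-- the basis vectors -/
noncomputable def del (s : ι) : Ell ι := lp.single 1 s (1 : ℂ)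

lemma hasSum_norm (x : Ell ι) : HasSum (fun s => ‖x s‖) ‖x‖ := by
  have := lp.hasSum_norm (p := 1) (by simp) x
  simpa using this

lemma norm_del (s : ι) : ‖(del s : Ell ι)‖ = 1 := by
  unfold del
  rw [lp.norm_single (by simp)]
  simp

lemma del_apply (s t : ι) : (del s : Ell ι) t = if t = s then 1 else 0 := by
  unfold del
  rw [lp.coeFn_single]
  by_cases h : t = s
  · subst h; simp
  · simp [h]

lemma summable_smul (v : ι → F) (C : ℝ) (h : ∀ s, ‖v s‖ ≤ C) (x : Ell ι) :
    Summable fun s => x s • v s := by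
  refine Summable.of_norm_bounded (g := fun s => ‖x s‖ * C) ((hasSum_norm x).summable.mul_right C) ?_
  intro s
  rw [norm_smul]
  exact mul_le_mul_of_nonneg_left (h s) (norm_nonneg _)

/-- the bounded linear map with prescribed (bounded) values at the basis vectors -/
noncomputable def lift (v : ι → F) (C : ℝ) (h : ∀ s, ‖v s‖ ≤ C) : Ell ι →L[ℂ] F :=
  LinearMap.mkContinuous
    { toFun := fun x => ∑' s, x s • v s
      map_add' := fun x y => by
        rw [← (summable_smul v C h x).tsum_add (summable_smul v C h y)]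
        refine tsum_congr fun s => ?_
        rw [lp.coeFn_add, Pi.add_apply, add_smul]
      map_smul' := fun c x => by
        rw [RingHom.id_apply, ← (summable_smul v C h x).tsum_const_smul c]
        refine tsum_congr fun s => ?_
        rw [lp.coeFn_smul, Pi.smul_apply, smul_eq_mul, mul_smul] } C
    (fun x => by
      change ‖∑' s, x s • v s‖ ≤ C * ‖x‖
      have h1 : HasSum (fun s => C * ‖x s‖) (C * ‖x‖) := (hasSum_norm x).mul_left C
      refine tsum_of_norm_bounded h1 fun s => ?_
      rw [norm_smul, mul_comm]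
      exact mul_le_mul_of_nonneg_right (h s) (norm_nonneg _))

lemma lift_apply (v : ι → F) (C : ℝ) (h : ∀ s, ‖v s‖ ≤ C) (x : Ell ι) :
    lift v C h x = ∑' s, x s • v s := rfl

@[simp] lemma lift_del (v : ι → F) (C : ℝ) (h : ∀ s, ‖v s‖ ≤ C) (s : ι) :
    lift v C h (del s) = v s := by
  rw [lift_apply, tsum_eq_single s]
  · simp [del_apply]
  · intro t ht
    simp [del_apply, ht]

lemma norm_lift_apply_le (v : ι → F) (C : ℝ) (h : ∀ s, ‖v s‖ ≤ C) (x : Ell ι) :
    ‖lift v C h x‖ ≤ C * ‖x‖ := by
  rw [lift_apply]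
  refine tsum_of_norm_bounded ((hasSum_norm x).mul_left C) fun s => ?_
  rw [norm_smul, mul_comm]
  exact mul_le_mul_of_nonneg_right (h s) (norm_nonneg _)

lemma hasSum_del (x : Ell ι) : HasSum (fun s => x s • (del s : Ell ι)) x := by
  have h1 := lp.hasSum_single (p := 1) (by simp) x
  have h2 : (fun s => x s • (del s : Ell ι)) = fun s => lp.single 1 s (x s) := by
    funext s
    ext t
    rw [lp.coeFn_smul, Pi.smul_apply, del_apply, lp.coeFn_single]
    by_cases h : t = s
    · subst h; simp
    · simp [h]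
  rw [h2]
  exact h1

lemma ext_del {T S : Ell ι →L[ℂ] F} (h : ∀ s, T (del s) = S (del s)) : T = S := by
  ext x
  have h1 := (hasSum_del x).mapL T
  have h2 := (hasSum_del x).mapL S
  have : (fun s => T (x s • (del s : Ell ι))) = fun s => S (x s • (del s : Ell ι)) := by
    funext s
    rw [map_smul, map_smul, h]
  rw [this] at h1
  exact h1.unique h2

lemma apply_eq_tsum (T : Ell ι →L[ℂ] F) (x : Ell ι) : T x = ∑' s, x s • T (del s) := by
  have h1 := (hasSum_del x).mapL T
  rw [← h1.tsum_eq]
  refine tsum_congr fun s => by rw [map_smul]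

/-- pointwise convergence from convergence at the basis vectors and a uniform bound there -/
lemma tendsto_of_del {κ : Type*} {l : Filter κ} (T : κ → Ell ι →L[ℂ] F) (S : Ell ι →L[ℂ] F)
    (C : ℝ) (hC : ∀ k s, ‖T k (del s)‖ ≤ C)
    (h : ∀ s, Tendsto (fun k => T k (del s)) l (𝓝 (S (del s)))) (x : Ell ι) :
    Tendsto (fun k => T k x) l (𝓝 (S x)) := by
  simp_rw [apply_eq_tsum (T _) x]
  rw [apply_eq_tsum S x]
  refine tendsto_tsum_of_dominated_convergence (bound := fun s => ‖x s‖ * C)
    ((hasSum_norm x).summable.mul_right C) (fun s => (h s).const_smul _) ?_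
  refine Eventually.of_forall fun k s => ?_
  rw [norm_smul]
  exact mul_le_mul_of_nonneg_left (hC k s) (norm_nonneg _)

end Pool.Agent.Q193.SB
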