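import Pool.Agent.Q193.SA.Defs

set_option autoImplicit false
set_option linter.unusedSectionVars false

/-!
Bounded approximate semi-amenability: the definition, a sufficient condition for approximate
semi-amenability and the module `A* ` with trivial left action.
-/

open Filter Topology

namespace Pool.Agent.Q193.SB

open Pool.Agent.Q193.SA

universe u v

/-- `D : A → X*` is boundedly approximately semi-inner: there are nets `ξ, η` in `X*` (given as
functions on a type with a proper filter) with `D a = lim (a · ξ_i - η_i · a)` in the norm of `X*`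
for every `a`, and a constant `K` with `‖a · ξ_i - η_i · a‖ ≤ K ‖a‖` for all `a` and `i`. -/
def BddApproxSemiInner {A : Type u} {X : Type v} [NonUnitalNormedRing A] [NormedSpace ℂ A]
    [NormedAddCommGroup X] [NormedSpace ℂ X] (M : Bimodule A X) (D : A →L[ℂ] (X →L[ℂ] ℂ)) : Prop :=
  ∃ (ι : Type u) (l : Filter ι) (_ : l.NeBot) (ξ η : ι → (X →L[ℂ] ℂ)) (K : ℝ),
    (∀ (i : ι) (a : A), ‖M.dualL a (ξ i) - M.dualR a (η i)‖ ≤ K * ‖a‖) ∧
    ∀ a : A, Tendsto (fun i => M.dualL a (ξ i) - M.dualR a (η i)) l (𝓝 (D a))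

/-- The Banach algebra `A` is boundedly approximately semi-amenable: every continuous derivation
from `A` into the dual `X*` of a Banach `A`-bimodule `X` is boundedly approximately semi-inner. -/
def BddApproxSemiAmenable (A : Type u) [NonUnitalNormedRing A] [NormedSpace ℂ A] : Prop :=
  ∀ (X : Type u) [NormedAddCommGroup X] [NormedSpace ℂ X] [CompleteSpace X] (M : Bimodule A X)
    (D : A →L[ℂ] (X →L[ℂ] ℂ)), M.IsDerivation D → BddApproxSemiInner M D

section

variable {A : Type u} {X : Type v} [NonUnitalNormedRing A] [NormedSpace ℂ A]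
    [NormedAddCommGroup X] [NormedSpace ℂ X] (M : Bimodule A X)

lemma dualL_mul (a b : A) (φ : X →L[ℂ] ℂ) : M.dualL (a * b) φ = M.dualL a (M.dualL b φ) := by
  ext x
  simp [Bimodule.dualL, M.R_mul]

lemma dualR_mul (a b : A) (φ : X →L[ℂ] ℂ) : M.dualR (a * b) φ = M.dualR b (M.dualR a φ) := by
  ext x
  simp [Bimodule.dualR, M.L_mul]

lemma dual_comm (a b : A) (φ : X →L[ℂ] ℂ) :
    M.dualR b (M.dualL a φ) = M.dualL a (M.dualR b φ) := by
  ext x
  simp [Bimodule.dualL, Bimodule.dualR, M.comm]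

lemma dualL_smul (c : ℂ) (a : A) (φ : X →L[ℂ] ℂ) : M.dualL (c • a) φ = c • M.dualL a φ := by
  ext x
  simp [Bimodule.dualL]

lemma dualL_sub (a : A) (φ ψ : X →L[ℂ] ℂ) : M.dualL a (φ - ψ) = M.dualL a φ - M.dualL a ψ := by
  ext x
  simp [Bimodule.dualL]

lemma dualL_smul' (c : ℂ) (a : A) (φ : X →L[ℂ] ℂ) : M.dualL a (c • φ) = c • M.dualL a φ := by
  ext x
  simp [Bimodule.dualL]

lemma dualL_sum {K : Type*} (a : A) (s : Finset K) (φ : K → (X →L[ℂ] ℂ)) :
    M.dualL a (∑ k ∈ s, φ k) = ∑ k ∈ s, M.dualL a (φ k) := by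
  ext x
  simp [Bimodule.dualL]

lemma dualR_sum {K : Type*} (a : A) (s : Finset K) (φ : K → (X →L[ℂ] ℂ)) :
    M.dualR a (∑ k ∈ s, φ k) = ∑ k ∈ s, M.dualR a (φ k) := by
  ext x
  simp [Bimodule.dualR]

lemma dualL_sum' {K : Type*} (s : Finset K) (e : K → A) (φ : X →L[ℂ] ℂ) :
    M.dualL (∑ k ∈ s, e k) φ = ∑ k ∈ s, M.dualL (e k) φ := by
  ext x
  simp [Bimodule.dualL]

lemma dualR_sub (a : A) (φ ψ : X →L[ℂ] ℂ) : M.dualR a (φ - ψ) = M.dualR a φ - M.dualR a ψ := by
  ext x
  simp [Bimodule.dualR]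

end

/-- A Banach algebra with minimal idempotents `e k` (`a e_k = e_k a = χ_k(a) e_k`) whose finite sums
contain an approximate identity is approximately semi-amenable. -/
theorem semi_of_units {A : Type u} [NonUnitalNormedRing A] [NormedSpace ℂ A]
    {K : Type} (e : K → A) (χ : K → A → ℂ)
    (h1 : ∀ a k, a * e k = χ k a • e k) (h2 : ∀ a k, e k * a = χ k a • e k)
    (h3 : ∀ k, e k * e k = e k) (κ : Type u) (l : Filter κ) (hl : l.NeBot) (F : κ → Finset K)
    (h : ∀ a, Tendsto (fun i => (∑ k ∈ F i, e k) * a) l (𝓝 a)) : ApproxSemiAmenable A := by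
  intro X _ _ _ M D hD
  have key : ∀ (i : κ) (a : A), M.dualL a (∑ k ∈ F i, M.dualL (e k) (D (e k))) -
      M.dualR a (∑ k ∈ F i, M.dualL (e k) (D (e k)) - D (∑ k ∈ F i, e k)) =
      D ((∑ k ∈ F i, e k) * a) := by
    intro i a
    rw [hD, dualR_sub, dualL_sum, dualR_sum, dualL_sum', ← sub_add, ← Finset.sum_sub_distrib]
    congr 1
    refine Finset.sum_congr rfl fun k _ => ?_
    rw [← dualL_mul, h1, dualL_smul, dual_comm]
    have h4 : M.dualR a (D (e k)) = χ k a • D (e k) - M.dualL (e k) (D a) := by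
      rw [eq_sub_iff_add_eq, add_comm, ← hD, h2, map_smul]
    rw [h4, dualL_sub, dualL_smul', ← dualL_mul, h3]
    abel
  refine ⟨κ, l, hl, fun i => ∑ k ∈ F i, M.dualL (e k) (D (e k)),
    fun i => ∑ k ∈ F i, M.dualL (e k) (D (e k)) - D (∑ k ∈ F i, e k), fun a => ?_⟩
  simp only [key]
  exact (D.continuous.tendsto a).comp (h a)

section Dual

variable (A : Type u) [NonUnitalNormedRing A] [NormedSpace ℂ A] [IsScalarTower ℂ A A]
  [SMulCommClass ℂ A A]

/-- `A*` with the zero left action and `(f · a)(x) = f (a x)`. -/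
noncomputable def dmod : Bimodule A (A →L[ℂ] ℂ) where
  L := 0
  R := ((ContinuousLinearMap.compL ℂ A A ℂ).flip).comp (ContinuousLinearMap.mul ℂ A)
  L_mul a b x := by simp
  R_mul a b x := by
    ext y
    simp [mul_assoc]
  comm a b x := by simp

lemma dmod_dualL_apply (a : A) (ξ : (A →L[ℂ] ℂ) →L[ℂ] ℂ) (f : A →L[ℂ] ℂ) :
    (dmod A).dualL a ξ f = ξ (f.comp (ContinuousLinearMap.mul ℂ A a)) := rfl

lemma dmod_dualR_apply (a : A) (ξ : (A →L[ℂ] ℂ) →L[ℂ] ℂ) : (dmod A).dualR a ξ = 0 := by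
  ext f
  simp [Bimodule.dualR, dmod]

/-- the canonical embedding `A → A**` -/
noncomputable def canD : A →L[ℂ] ((A →L[ℂ] ℂ) →L[ℂ] ℂ) :=
  (ContinuousLinearMap.id ℂ (A →L[ℂ] ℂ)).flip

lemma canD_apply (a : A) (f : A →L[ℂ] ℂ) : canD A a f = f a := rfl

lemma canD_der : (dmod A).IsDerivation (canD A) := by
  intro a b
  rw [dmod_dualR_apply, add_zero]
  ext f
  rw [dmod_dualL_apply, canD_apply, canD_apply]
  rfl

end Dual

end Pool.Agent.Q193.SB
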