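import Pool.Agent.Q193.SB.Alg
import Pool.Agent.Q193.SB.Gen

set_option autoImplicit false
set_option linter.unusedSectionVars false

open Filter Topology

namespace Pool.Agent.Q193.SB

open Pool.Agent.Q193.SA

/-- the minimal idempotents -/
noncomputable def ee (k : ℕ × ℕ) : Ell (ℕ × ℕ) :=
  if k.2 = 0 then (wt k : ℂ) • del k else (wt k : ℂ) • del k - (wt (k.1, 0) : ℂ) • del (k.1, 0)

lemma chi_wdel (k s : ℕ × ℕ) : chi k ((wt s : ℂ) • del s) = if On k s then 1 else 0 := by
  rw [map_smul, chi_del, smul_eq_mul]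
  split_ifs
  · push_cast
    exact mul_inv_cancel₀ (wt_ne s)
  · simp

lemma chi_ee (l k : ℕ × ℕ) : chi l (ee k) = if l = k then 1 else 0 := by
  obtain ⟨n, j⟩ := k
  obtain ⟨p, q⟩ := l
  unfold ee
  by_cases hj : j = 0
  · subst hj
    rw [if_pos rfl, chi_wdel]
    congr 1
    unfold On
    simp only [Prod.mk.injEq, eq_iff_iff]
    constructor
    · rintro ⟨h1, h2⟩
      exact ⟨h1.symm, h2.elim id fun h => h.symm⟩
    · rintro ⟨h1, h2⟩
      exact ⟨h1.symm, Or.inl h2⟩
  · simp only [hj, if_false]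
    rw [map_sub, chi_wdel, chi_wdel]
    unfold On
    simp only [Prod.mk.injEq]
    by_cases h1 : n = p
    · subst h1
      by_cases hq : q = 0
      · subst hq
        simp [Ne.symm hj]
      · have : ¬ (0 = q) := fun h => hq h.symm
        by_cases hjq : j = q
        · simp [hjq, hq, this]
        · have : ¬ (q = j) := fun h => hjq h.symm
          simp [hjq, hq, this]
          omega
    · have : ¬ (p = n) := fun h => h1 h.symm
      simp [h1, this]

lemma mulL_ee (a : Ell (ℕ × ℕ)) (k : ℕ × ℕ) : mulL a (ee k) = chi k a • ee k := by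
  refine chi_ext fun l => ?_
  rw [chi_mulL, map_smul, chi_ee, smul_eq_mul]
  by_cases h : l = k
  · rw [h]
  · simp [h]

lemma ee_mulL (a : Ell (ℕ × ℕ)) (k : ℕ × ℕ) : mulL (ee k) a = chi k a • ee k := by
  rw [mulL_comm, mulL_ee]

lemma ee_idem (k : ℕ × ℕ) : mulL (ee k) (ee k) = ee k := by
  rw [mulL_ee, chi_ee, if_pos rfl, one_smul]

/-- the finite index sets -/
def FF (i : ℕ × ℕ) : Finset (ℕ × ℕ) := Finset.range i.1 ×ˢ Finset.range (i.2 + 1)

/-- the partial units -/
noncomputable def PP (i : ℕ × ℕ) : Ell (ℕ × ℕ) := ∑ k ∈ FF i, ee k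

lemma chi_PP (l i : ℕ × ℕ) : chi l (PP i) = if l ∈ FF i then 1 else 0 := by
  unfold PP
  rw [map_sum]
  simp only [chi_ee]
  rw [Finset.sum_ite_eq]

lemma PP_del_ge (i s : ℕ × ℕ) (h : i.1 ≤ s.1) : mulL (PP i) (del s) = 0 := by
  refine chi_ext fun l => ?_
  rw [chi_mulL, chi_PP, chi_del, map_zero]
  by_cases h1 : On l s
  · have : l ∉ FF i := by
      unfold FF
      rw [Finset.mem_product, Finset.mem_range]
      rintro ⟨h2, _⟩
      have := h1.1
      omega
    simp [this]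
  · simp [h1]

lemma PP_del_lt (i s : ℕ × ℕ) (h : s.1 < i.1) (h' : s.2 ≤ i.2) : mulL (PP i) (del s) = del s := by
  refine chi_ext fun l => ?_
  rw [chi_mulL, chi_PP, chi_del]
  by_cases h1 : On l s
  · have : l ∈ FF i := by
      unfold FF
      rw [Finset.mem_product, Finset.mem_range, Finset.mem_range]
      obtain ⟨h2, h3⟩ := h1
      refine ⟨by omega, ?_⟩
      rcases h3 with h3 | h3 <;> omega
    simp [this, h1]
  · simp [h1]

lemma PP_del_far (i s : ℕ × ℕ) (h : s.1 < i.1) (h' : i.2 < s.2) :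
    mulL (PP i) (del s) = ((wt (s.1, 0) / wt s : ℝ) : ℂ) • del (s.1, 0) := by
  refine chi_ext fun l => ?_
  rw [chi_mulL, chi_PP, chi_del, map_smul, chi_del, smul_eq_mul]
  have h5 := wt_ne s
  have h6 := wt_ne (s.1, 0)
  by_cases h1 : l ∈ FF i
  · have h2 := h1
    unfold FF at h2
    rw [Finset.mem_product, Finset.mem_range, Finset.mem_range] at h2
    have key : On l s ↔ On l (s.1, 0) := by
      unfold On
      simp only
      constructor
      · rintro ⟨h3, h4⟩
        exact ⟨h3, Or.inl (by omega)⟩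
      · rintro ⟨h3, h4⟩
        exact ⟨h3, Or.inl (by omega)⟩
    by_cases h3 : On l s
    · rw [if_pos h1, if_pos h3, if_pos (key.mp h3)]
      push_cast
      field_simp
    · rw [if_neg h3, if_neg (fun h => h3 (key.mpr h))]
      simp
  · rw [if_neg h1]
    have : ¬ On l (s.1, 0) := by
      rintro ⟨h3, h4⟩
      apply h1
      unfold FF
      rw [Finset.mem_product, Finset.mem_range, Finset.mem_range]
      simp only at h3 h4
      omega
    rw [if_neg this]
    simp

lemma norm_PP_del (m J : ℕ) (s : ℕ × ℕ) : ‖mulL (PP (m, J)) (del s)‖ ≤ ((m : ℝ) + 1) ^ 2 := by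
  have hm : (0 : ℝ) ≤ m := Nat.cast_nonneg _
  by_cases h : m ≤ s.1
  · rw [PP_del_ge _ _ h, norm_zero]; positivity
  · push Not at h
    by_cases h' : s.2 ≤ J
    · rw [PP_del_lt _ _ h h', norm_del]
      nlinarith
    · push Not at h'
      rw [PP_del_far _ _ h h', norm_smul, norm_del, mul_one, Complex.norm_real, Real.norm_eq_abs,
        abs_of_nonneg (div_nonneg (wt_pos _).le (wt_pos _).le)]
      refine (div_le_self (wt_pos _).le (one_le_wt s)).trans ?_
      have h1 : (s.1 : ℝ) ≤ m := by exact_mod_cast h.le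
      have h2 : (0 : ℝ) ≤ s.1 := Nat.cast_nonneg _
      have : wt (s.1, 0) = ((s.1 : ℝ) + 1) ^ 2 := by simp [wt]
      rw [this]
      gcongr

/-- projection to the first `m` blocks -/
noncomputable def QQ (m : ℕ) : Ell (ℕ × ℕ) →L[ℂ] Ell (ℕ × ℕ) :=
  lift (fun s => if s.1 < m then del s else 0) 1 (fun s => by
    split_ifs
    · rw [norm_del]
    · simp)

lemma tendsto_inner (m : ℕ) (a : Ell (ℕ × ℕ)) :
    Tendsto (fun J : ℕ => mulL (PP (m, J)) a) atTop (𝓝 (QQ m a)) := by
  refine tendsto_of_del (fun J : ℕ => mulL (PP (m, J))) (QQ m) (((m : ℝ) + 1) ^ 2)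
    (fun J s => norm_PP_del m J s) (fun s => ?_) a
  refine tendsto_const_nhds.congr' ?_
  filter_upwards [eventually_ge_atTop s.2] with J hJ
  unfold QQ
  rw [lift_del]
  by_cases h : s.1 < m
  · rw [if_pos h, PP_del_lt _ _ h hJ]
  · rw [if_neg h, PP_del_ge _ _ (not_lt.mp h)]

lemma tendsto_outer (a : Ell (ℕ × ℕ)) : Tendsto (fun m : ℕ => QQ m a) atTop (𝓝 a) := by
  refine tendsto_of_del (fun m : ℕ => QQ m) (ContinuousLinearMap.id ℂ _) 1
    (fun m s => ?_) (fun s => ?_) a
  · unfold QQ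
    rw [lift_del]
    split_ifs
    · rw [norm_del]
    · simp
  · refine tendsto_const_nhds.congr' ?_
    filter_upwards [eventually_gt_atTop s.1] with m hm
    unfold QQ
    rw [lift_del, if_pos hm]
    rfl

lemma tendsto_units (a : Ell (ℕ × ℕ)) :
    Tendsto (fun i : ℕ × ℕ => mulL (PP i) a) ((atTop : Filter ℕ).curry (atTop : Filter ℕ))
      (𝓝 a) := by
  rw [Metric.tendsto_nhds]
  intro ε hε
  rw [eventually_curry_iff]
  have h1 := Metric.tendsto_nhds.mp (tendsto_outer a) (ε / 2) (half_pos hε)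
  filter_upwards [h1] with m hm
  have h2 := Metric.tendsto_nhds.mp (tendsto_inner m a) (ε / 2) (half_pos hε)
  filter_upwards [h2] with J hJ
  calc dist (mulL (PP (m, J)) a) a ≤ dist (mulL (PP (m, J)) a) (QQ m a) + dist (QQ m a) a :=
        dist_triangle _ _ _
    _ < ε / 2 + ε / 2 := add_lt_add hJ hm
    _ = ε := add_halves ε

lemma neBot_curry : ((atTop : Filter ℕ).curry (atTop : Filter ℕ)).NeBot := by
  refine ⟨fun h => ?_⟩
  have h1 : ∀ᶠ _ in ((atTop : Filter ℕ).curry (atTop : Filter ℕ)), False := by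
    rw [h]; exact eventually_bot
  rw [eventually_curry_iff] at h1
  simp only [eventually_atTop] at h1
  obtain ⟨a, h2⟩ := h1
  obtain ⟨c, h3⟩ := h2 a le_rfl
  exact h3 c le_rfl

theorem semi_SAlg : ApproxSemiAmenable SAlg := by
  refine semi_of_units (A := SAlg) ee (fun k a => chi k a) (fun a k => mulL_ee a k)
    (fun a k => ee_mulL a k) ee_idem (ℕ × ℕ) ((atTop : Filter ℕ).curry (atTop : Filter ℕ))
    neBot_curry FF tendsto_units

/-- the functional of norm one living on the `n`-th block -/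
noncomputable def fn (n : ℕ) : Ell (ℕ × ℕ) →L[ℂ] ℂ :=
  lift (fun s => if s.1 = n then 1 else 0) 1 (fun s => by split_ifs <;> simp)

lemma fn_del (n : ℕ) (s : ℕ × ℕ) : fn n (del s) = if s.1 = n then 1 else 0 := lift_del _ _ _ _

lemma norm_fn (n : ℕ) : ‖fn n‖ ≤ 1 := norm_lift_le _ 1 zero_le_one _

/-- averages of the `b_j` in the `n`-th block -/
noncomputable def av (n J : ℕ) : Ell (ℕ × ℕ) :=
  (((n : ℂ) + 1) / ((J : ℂ) + 1)) • ∑ j ∈ Finset.range (J + 1), del (n, j + 1)

lemma norm_av (n J : ℕ) : ‖av n J‖ ≤ (n : ℝ) + 1 := by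
  unfold av
  have h0 : (0 : ℝ) < (J : ℝ) + 1 := by positivity
  have h1 : ‖(((n : ℂ) + 1) / ((J : ℂ) + 1))‖ = ((n : ℝ) + 1) / ((J : ℝ) + 1) := by
    rw [show (((n : ℂ) + 1) / ((J : ℂ) + 1)) = ((((n : ℝ) + 1) / ((J : ℝ) + 1) : ℝ) : ℂ) by
      push_cast; rfl, Complex.norm_real, Real.norm_eq_abs, abs_of_nonneg (by positivity)]
  rw [norm_smul, h1]
  have h2 : ‖∑ j ∈ Finset.range (J + 1), (del (n, j + 1) : Ell (ℕ × ℕ))‖ ≤ (J : ℝ) + 1 := by
    refine (norm_sum_le _ _).trans ?_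
    simp [norm_del]
  calc ((n : ℝ) + 1) / ((J : ℝ) + 1) * ‖∑ j ∈ Finset.range (J + 1), (del (n, j + 1) : Ell (ℕ × ℕ))‖
      ≤ ((n : ℝ) + 1) / ((J : ℝ) + 1) * ((J : ℝ) + 1) := by gcongr
    _ = (n : ℝ) + 1 := by field_simp

lemma norm_le_of_del {F : Type*} [NormedAddCommGroup F] [NormedSpace ℂ F] [CompleteSpace F]
    (T : Ell (ℕ × ℕ) →L[ℂ] F) (C : ℝ) (hC : 0 ≤ C) (h : ∀ s, ‖T (del s)‖ ≤ C) : ‖T‖ ≤ C := by
  refine ContinuousLinearMap.opNorm_le_bound _ hC fun x => ?_
  rw [apply_eq_tsum]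
  refine tsum_of_norm_bounded ((hasSum_norm x).mul_left C) fun s => ?_
  rw [norm_smul, mul_comm]
  exact mul_le_mul_of_nonneg_right (h s) (norm_nonneg _)

lemma fn_tab (n j i : ℕ) : fn n (tab (n, j + 1) (n, i)) =
    if i = 0 then (((n : ℂ) + 1))⁻¹ else if i = j + 1 then (((n : ℂ) + 1))⁻¹ else 1 := by
  have hn : ((n : ℂ) + 1) ≠ 0 := by exact_mod_cast Nat.succ_ne_zero n
  unfold tab
  simp only [if_true]
  rw [map_smul, fn_del, if_pos rfl, smul_eq_mul, mul_one]
  unfold wt meet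
  by_cases hi : i = 0
  · subst hi
    simp
    field_simp
  · by_cases hij : i = j + 1
    · subst hij
      simp
    · have : ¬ (j + 1 = i) := fun h => hij h.symm
      simp [hi, hij, this]
      field_simp

lemma fn_av (n J : ℕ) (s : ℕ × ℕ) : ‖fn n (mulL (av n J) (del s)) -
    ((n : ℂ) + 1) ^ 2 * chi (n, 0) (del s)‖ ≤ ((n : ℝ) + 1) / ((J : ℝ) + 1) := by
  obtain ⟨m, i⟩ := s
  have hn : ((n : ℂ) + 1) ≠ 0 := by exact_mod_cast Nat.succ_ne_zero n
  have hJ : ((J : ℂ) + 1) ≠ 0 := by exact_mod_cast Nat.succ_ne_zero J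
  have e1 : fn n (mulL (av n J) (del (m, i))) = (((n : ℂ) + 1) / ((J : ℂ) + 1)) *
      ∑ j ∈ Finset.range (J + 1), fn n (tab (n, j + 1) (m, i)) := by
    unfold av
    rw [map_smul, FunLike.coe_smul, Pi.smul_apply, map_smul, smul_eq_mul, map_sum]
    congr 1
    rw [sum_apply, map_sum]
    refine Finset.sum_congr rfl fun j _ => by rw [mulL_del]
  rw [e1, chi_del]
  by_cases hm : n = m
  · subst hm
    simp only [fn_tab]
    by_cases hi : i = 0
    · subst hi
      have h1 : On (n, 0) (n, 0) := ⟨rfl, Or.inl rfl⟩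
      rw [if_pos h1]
      simp only [if_true, Finset.sum_const, Finset.card_range, nsmul_eq_mul]
      have : (((n : ℂ) + 1) / ((J : ℂ) + 1)) * (((J + 1 : ℕ) : ℂ) * ((n : ℂ) + 1)⁻¹) -
          ((n : ℂ) + 1) ^ 2 * (((wt (n, 0))⁻¹ : ℝ) : ℂ) = 0 := by
        simp only [wt, if_true]
        push_cast
        field_simp
        ring
      rw [this, norm_zero]
      positivity
    · have h1 : On (n, 0) (n, i) := ⟨rfl, Or.inl rfl⟩
      rw [if_pos h1]
      simp only [hi, if_false]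
      have h2 : ∀ j, (if i = j + 1 then ((n : ℂ) + 1)⁻¹ else 1) =
          1 + (if j = i - 1 then (((n : ℂ) + 1)⁻¹ - 1) else 0) := by
        intro j
        by_cases h : i = j + 1
        · have : j = i - 1 := by omega
          rw [if_pos h, if_pos this]; ring
        · have : ¬ (j = i - 1) := by omega
          rw [if_neg h, if_neg this]; ring
      simp only [h2]
      rw [Finset.sum_add_distrib, Finset.sum_ite_eq']
      simp only [Finset.sum_const, Finset.card_range, nsmul_eq_mul, mul_one]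
      have h3 : (((n : ℂ) + 1) / ((J : ℂ) + 1)) * (((J + 1 : ℕ) : ℂ) +
          (if i - 1 ∈ Finset.range (J + 1) then (((n : ℂ) + 1)⁻¹ - 1) else 0)) -
          ((n : ℂ) + 1) ^ 2 * (((wt (n, i))⁻¹ : ℝ) : ℂ) =
          (((n : ℂ) + 1) / ((J : ℂ) + 1)) *
            (if i - 1 ∈ Finset.range (J + 1) then (((n : ℂ) + 1)⁻¹ - 1) else 0) := by
        simp only [wt, hi, if_false]
        push_cast
        field_simp
        ring
      rw [h3, norm_mul]
      have h4 : ‖(((n : ℂ) + 1) / ((J : ℂ) + 1))‖ = ((n : ℝ) + 1) / ((J : ℝ) + 1) := by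
        rw [show (((n : ℂ) + 1) / ((J : ℂ) + 1)) = ((((n : ℝ) + 1) / ((J : ℝ) + 1) : ℝ) : ℂ) by
          push_cast; rfl, Complex.norm_real, Real.norm_eq_abs, abs_of_nonneg (by positivity)]
      rw [h4]
      refine mul_le_of_le_one_right (by positivity) ?_
      split_ifs
      · rw [show (((n : ℂ) + 1)⁻¹ - 1) = ((((n : ℝ) + 1)⁻¹ - 1 : ℝ) : ℂ) by push_cast; rfl,
          Complex.norm_real, Real.norm_eq_abs]
        have h5 : 0 < ((n : ℝ) + 1)⁻¹ := by positivity
        have h6 : ((n : ℝ) + 1)⁻¹ ≤ 1 := inv_le_one_of_one_le₀ (by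
          have : (0 : ℝ) ≤ n := Nat.cast_nonneg _
          linarith)
        rw [abs_of_nonpos (by linarith)]
        linarith
      · simp
  · have h1 : ¬ On (n, 0) (m, i) := fun h => hm h.1.symm
    rw [if_neg h1]
    have h2 : ∀ j, fn n (tab (n, j + 1) (m, i)) = 0 := by
      intro j
      unfold tab
      simp [hm]
    simp only [h2]
    simp
    positivity

lemma fn_oo (n : ℕ) (x : Ell (ℕ × ℕ)) :
    fn n (mulL (ee (n, 0)) x) = ((n : ℂ) + 1) ^ 2 * chi (n, 0) x := by
  rw [ee_mulL, map_smul, smul_eq_mul, mul_comm]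
  congr 1
  unfold ee
  rw [if_pos rfl, map_smul, fn_del, if_pos rfl]
  simp [wt]

theorem not_bdd_SAlg : ¬ BddApproxSemiAmenable SAlg := by
  intro hA
  obtain ⟨κ, l, hl, ξ, η, K, hK, hlim⟩ := hA (SAlg →L[ℂ] ℂ) (dmod SAlg) (canD SAlg) (canD_der SAlg)
  have hK0 : ∀ n : ℕ, (n : ℝ) + 1 ≤ K := by
    intro n
    have hnpos : (0 : ℝ) < (n : ℝ) + 1 := by positivity
    let f : SAlg →L[ℂ] ℂ := fn n
    let c0 : SAlg →L[ℂ] ℂ := chi (n, 0)
    let o : SAlg := ee (n, 0)
    have hf1 : ‖f‖ ≤ 1 := norm_fn n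
    have ho : f.comp (ContinuousLinearMap.mul ℂ SAlg o) = (((n : ℂ) + 1) ^ 2) • c0 := by
      ext x
      exact fn_oo n x
    have hfo : f o = ((n : ℂ) + 1) ^ 2 := by
      have := fn_oo n (ee (n, 0))
      rw [ee_idem, chi_ee, if_pos rfl, mul_one] at this
      exact this
    -- the values `ξ_i c0` are bounded by `K / (n+1)`
    have hbd : ∀ i, ‖((n : ℂ) + 1) ^ 2 * ξ i c0‖ ≤ K * ((n : ℝ) + 1) := by
      intro i
      have hJ : ∀ J : ℕ, ‖((n : ℂ) + 1) ^ 2 * ξ i c0‖ ≤
          K * ((n : ℝ) + 1) + ‖ξ i‖ * (((n : ℝ) + 1) / ((J : ℝ) + 1)) := by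
        intro J
        let a : SAlg := av n J
        have ha : ‖a‖ ≤ (n : ℝ) + 1 := norm_av n J
        have h1 : ‖f.comp (ContinuousLinearMap.mul ℂ SAlg a) - (((n : ℂ) + 1) ^ 2) • c0‖ ≤
            ((n : ℝ) + 1) / ((J : ℝ) + 1) := by
          refine norm_le_of_del _ _ (by positivity) fun s => ?_
          exact fn_av n J s
        have h2 : ‖ξ i (f.comp (ContinuousLinearMap.mul ℂ SAlg a))‖ ≤ K * ((n : ℝ) + 1) := by
          have h3 := hK i a
          rw [dmod_dualR_apply, sub_zero] at h3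
          have h4 : ‖(dmod SAlg).dualL a (ξ i) f‖ ≤ K * ‖a‖ * ‖f‖ :=
            (((dmod SAlg).dualL a (ξ i)).le_opNorm f).trans
              (mul_le_mul_of_nonneg_right h3 (norm_nonneg _))
          rw [dmod_dualL_apply] at h4
          have hKa : 0 ≤ K * ‖a‖ := (norm_nonneg _).trans h3
          have h5 : K * ‖a‖ * ‖f‖ ≤ K * ‖a‖ := mul_le_of_le_one_right hKa hf1
          have hKn : 0 ≤ K := by
            have h6 := hK i o
            have h7 : (0 : ℝ) < ‖o‖ := by
              rw [norm_pos_iff]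
              intro h
              rw [h, map_zero] at hfo
              have : ((n : ℂ) + 1) ≠ 0 := by exact_mod_cast Nat.succ_ne_zero n
              exact this (by simpa using hfo.symm)
            have h8 : 0 ≤ K * ‖o‖ := (norm_nonneg _).trans h6
            exact nonneg_of_mul_nonneg_left h8 h7
          exact h4.trans (h5.trans (mul_le_mul_of_nonneg_left ha hKn))
        have h3 : ((n : ℂ) + 1) ^ 2 * ξ i c0 = ξ i (f.comp (ContinuousLinearMap.mul ℂ SAlg a)) -
            ξ i (f.comp (ContinuousLinearMap.mul ℂ SAlg a) - (((n : ℂ) + 1) ^ 2) • c0) := by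
          rw [map_sub, map_smul, smul_eq_mul]; ring
        rw [h3]
        refine (norm_sub_le _ _).trans (add_le_add h2 ?_)
        exact ((ξ i).le_opNorm _).trans (mul_le_mul_of_nonneg_left h1 (norm_nonneg _))
      have hlim0 : Tendsto (fun J : ℕ => K * ((n : ℝ) + 1) +
          ‖ξ i‖ * (((n : ℝ) + 1) / ((J : ℝ) + 1))) atTop (𝓝 (K * ((n : ℝ) + 1) + ‖ξ i‖ * 0)) := by
        refine Tendsto.add tendsto_const_nhds (Tendsto.const_mul _ ?_)
        refine Tendsto.div_atTop tendsto_const_nhds ?_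
        exact tendsto_atTop_add_const_right _ _ tendsto_natCast_atTop_atTop
      have := ge_of_tendsto' hlim0 hJ
      simpa using this
    -- but they converge to `1`
    have h1 : Tendsto (fun i => ((n : ℂ) + 1) ^ 2 * ξ i c0) l (𝓝 (((n : ℂ) + 1) ^ 2)) := by
      have h2 := hlim o
      have h3 : Tendsto (fun i => ((dmod SAlg).dualL o (ξ i) - (dmod SAlg).dualR o (η i)) f) l
          (𝓝 (canD SAlg o f)) := by
        exact ((ContinuousLinearMap.apply ℂ ℂ f).continuous.tendsto _).comp h2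
      rw [canD_apply, hfo] at h3
      refine h3.congr fun i => ?_
      rw [dmod_dualR_apply, sub_zero, dmod_dualL_apply, ho, map_smul, smul_eq_mul]
    have h2 : ‖((n : ℂ) + 1) ^ 2‖ ≤ K * ((n : ℝ) + 1) :=
      le_of_tendsto' h1.norm hbd
    have h3 : ‖((n : ℂ) + 1) ^ 2‖ = ((n : ℝ) + 1) ^ 2 := by
      rw [norm_pow, show ((n : ℂ) + 1) = (((n : ℝ) + 1 : ℝ) : ℂ) by push_cast; rfl,
        Complex.norm_real, Real.norm_eq_abs, abs_of_pos hnpos]
    rw [h3] at h2
    nlinarith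
  obtain ⟨n, hn⟩ := exists_nat_gt K
  have := hK0 n
  linarith

end Pool.Agent.Q193.SB
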